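import Pool.Agent.W4.QD.Stms4
import Pool.Agent.W654.QD.TR

/-! Project QD: part TRF (adaptation of Pool.Agent.W654.QD.TR). -/

set_option autoImplicit false

namespace Pool.Agent.W571.QD

open NumberField Finset Polynomial Pool.Agent.W4.CF Pool.Agent.W4.VC Pool.Agent.W4.QD
open Pool.Agent.W654.QD

theorem BdB_pos (d : ℕ) (β Y R : ℝ) (hY : 1 ≤ Y) (hR : 1 ≤ R) : 0 < BdB d β Y R := by
  unfold BdB
  refine lt_min (Real.rpow_pos_of_pos (by linarith) _) (lt_max_of_lt_left ?_)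
  exact mul_pos (by linarith) (Real.rpow_pos_of_pos (by linarith) _)

theorem root_le' (β : ℝ) (z r V : ℝ) (hβ0 : 0 < β) (hβ1 : β < 1) (hz : 1 ≤ z) (hr : 0 < r)
    (h : z * r ≤ V * z ^ (1 - β)) : (2 * z) ^ β ≤ 2 * V * (1 / r) := by
  have hz0 : 0 < z := by linarith
  have h1 : 0 < z ^ (1 - β) := Real.rpow_pos_of_pos hz0 _
  have h2 : z = z ^ β * z ^ (1 - β) := by
    rw [← Real.rpow_add hz0]
    have : β + (1 - β) = 1 := by ring
    rw [this, Real.rpow_one]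
  have h3 : z ^ β ≤ V * (1 / r) := by
    rw [mul_one_div, le_div_iff₀ hr]
    have h4 : z ^ β * r * z ^ (1 - β) ≤ V * z ^ (1 - β) := by
      calc z ^ β * r * z ^ (1 - β)
          = z ^ β * z ^ (1 - β) * r := by ring
        _ = z * r := by rw [← h2]
        _ ≤ _ := h
    exact le_of_mul_le_mul_right h4 h1
  have h5 : (2 : ℝ) ^ β ≤ 2 := by
    calc (2 : ℝ) ^ β ≤ 2 ^ (1 : ℝ) := Real.rpow_le_rpow_of_exponent_le (by norm_num) hβ1.le
      _ = 2 := Real.rpow_one 2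
  rw [Real.mul_rpow (by norm_num) hz0.le, mul_assoc]
  have h6 : 0 ≤ z ^ β := by positivity
  exact mul_le_mul h5 h3 h6 (by norm_num)

theorem t_TRF (hLAT : Pool.Agent.W4.VC.S_LAT) (hSEL : Pool.Agent.W4.QD.S_SELB)
    (hRAD : Pool.Agent.W4.CF.S_RAD) : S_TRF := by
  classical
  intro F d β i hSqf hd3 hβ0 hβ1 hi1 hHB' c1 ε hc1 hε
  set η := ε / (3 * d + 2) with hη
  have hη0 : 0 < η := by positivity
  set c0 : ℝ := 1 + ∑ j ∈ range (d + 1), |(F.coeff j : ℝ)| with hc0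
  have hc01 : 1 ≤ c0 := by
    have : 0 ≤ ∑ j ∈ range (d + 1), |(F.coeff j : ℝ)| :=
      Finset.sum_nonneg fun _ _ => abs_nonneg _
    linarith
  obtain ⟨C', k0, hC', hsel⟩ := hSEL d β c0 c1 η hd3 hβ0 hβ1 (by linarith) hc1 hη0
  obtain ⟨CL, hCL, hL⟩ := hLAT F d hSqf (by omega) η hη0
  obtain ⟨CR, hCR, hR'⟩ := hRAD η hη0
  have hB1 : ∀ k : ℕ, ∃ C : ℝ, 0 < C ∧ (2 ≤ k → ∀ Y Z : ℝ, 1 ≤ Y → 1 ≤ Z → ∀ c : ℕ, 1 ≤ c →
      ∀ s : Finset (ℤ × ℤ),
      (∀ p ∈ s, IsCoprime p.1 p.2 ∧ |(p.1 : ℝ)| ≤ Y ∧ |(p.2 : ℝ)| ≤ Y ∧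
      ∃ z : ℕ, 1 ≤ z ∧ (z : ℝ) ≤ Z ∧ Nat.Coprime z (i * c) ∧
        (hom F d p.1 p.2).natAbs = c * z ^ k) →
      (s.card : ℝ) ≤ C * (Y * c) ^ η * Z ^ β) := by
    intro k
    by_cases hk : 2 ≤ k
    · obtain ⟨C, h1, h2⟩ := hHB' k η hk hη0
      exact ⟨C, h1, fun _ => h2⟩
    · exact ⟨1, one_pos, fun h => absurd h hk⟩
  choose CB hCB hB' using hB1
  set S1 : ℝ := 3 * CL + ∑ k ∈ Icc 2 k0, 2 * CB k with hS1
  have hS1pos : 0 < S1 := by
    have : 0 ≤ ∑ k ∈ Icc 2 k0, 2 * CB k :=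
      Finset.sum_nonneg (fun k _ => by have := hCB k; positivity)
    linarith
  have hc0η : 0 < c0 ^ η := Real.rpow_pos_of_pos (by linarith) _
  have hl2 : 0 < Real.log 2 := Real.log_pos (by norm_num)
  set CG : ℝ := 1 / (η * Real.log 2) + 1 with hCG
  have hCG0 : 0 < CG := by positivity
  refine ⟨CG * c0 ^ η * (S1 * c0 ^ η) * C' * (CR * c0 ^ η), by positivity, ?_⟩
  intro m Y R hm him hY hR hRY s hs
  set f : ℤ × ℤ → ℕ := fun p => (hom F d p.1 p.2).natAbs with hf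
  have hfabs : ∀ p, (f p : ℝ) = |((hom F d p.1 p.2 : ℤ) : ℝ)| := by
    intro p
    simp only [hf]
    rw [Nat.cast_natAbs, Int.cast_abs]
  have hY0 : 0 < Y := by linarith
  have hBd := BdB_pos d β Y R hY hR
  have hYη : 0 < Y ^ η := Real.rpow_pos_of_pos (by linarith) _
  set V : ℝ := C' * Y ^ η * BdB d β Y R with hV
  have hV0 : 0 < V := by positivity
  set N : ℕ := ⌊c0 * Y ^ d⌋₊ with hN
  have hf1 : ∀ p ∈ s, 1 ≤ f p := by
    intro p hp
    rw [Nat.one_le_iff_ne_zero]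
    intro h0
    exact (hs p hp).2.1 (Int.natAbs_eq_zero.1 h0)
  have hfle : ∀ p ∈ s, (f p : ℝ) ≤ c0 * Y ^ d := by
    intro p hp
    rw [hfabs]
    exact hom_le F d p.1 p.2 Y (hs p hp).1.2.1 (hs p hp).1.2.2.1
  have hfN : ∀ p ∈ s, f p ≤ N := fun p hp => Nat.le_floor (hfle p hp)
  have hc0Y : 1 ≤ c0 * Y ^ d := by
    have : (1 : ℝ) ≤ Y ^ d := one_le_pow₀ hY
    nlinarith
  have hN1 : 1 ≤ N := by
    rw [hN, Nat.one_le_floor_iff]
    exact hc0Y
  have hNle : (N : ℝ) ≤ c0 * Y ^ d := Nat.floor_le (by linarith)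
  have hE := hR' m N hm hN1
  have hNη : 0 ≤ (N : ℝ) ^ η := by positivity
  set A : ℕ := Nat.log 2 N with hA
  have hYd : Y ^ d = Y ^ (d - 2) * Y ^ 2 := by
    rw [← pow_add]; congr 1; omega
  -- part A
  set sA := s.filter (fun p => ∃ q : ℕ, q ∣ f p ∧
    (radp m q : ℝ) * max 1 ((f p : ℝ) / (Y ^ (d - 2) * q)) ≤ V) with hsA
  have hcardA : (sA.card : ℝ) ≤ ((A : ℝ) + 1) *
      ((3 * CL * (N : ℝ) ^ η * V) * (CR * ((m : ℝ) * N) ^ η)) := by
    refine dyad sA f A _ (fun p hp => ?_) (fun a t0 ht0 hta => ?_)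
    · exact Nat.log_mono_right (hfN p (Finset.mem_of_mem_filter p hp))
    refine Pool.Agent.W597.CF.cover m N t0 (fun p q => q ∣ f p ∧
      (radp m q : ℝ) * max 1 ((f p : ℝ) / (Y ^ (d - 2) * q)) ≤ V) _ _ (by positivity) ?_ ?_ hE
    · intro p hp
      have hp' := ht0 hp
      rw [hsA, Finset.mem_filter] at hp'
      obtain ⟨hps, q, hq1, hq2⟩ := hp'
      refine ⟨q, ?_, hq1, hq2⟩
      rw [Finset.mem_Icc]
      have h1 := hf1 p hps
      exact ⟨Nat.pos_of_dvd_of_pos hq1 (by omega),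
        (Nat.le_of_dvd (by omega) hq1).trans (hfN p hps)⟩
    · intro q hq t ht htQ
      rw [Finset.mem_Icc] at hq
      have hr0 : (0 : ℝ) < (radp m q : ℝ) := by exact_mod_cast Pool.Agent.W597.CF.radp_pos m q
      rcases Finset.eq_empty_or_nonempty t with h0 | ⟨p0, hp0⟩
      · rw [h0, Finset.card_empty, Nat.cast_zero]
        positivity
      have hts : ∀ p ∈ t, p ∈ s := fun p hp => Finset.mem_of_mem_filter p (ht0 (ht hp))
      have h1 := hL Y (2 * (f p0 : ℝ)) q hY (by positivity) hq.1 t (fun p hp => by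
        refine ⟨(hs p (hts p hp)).1, ?_, ?_⟩
        · rw [← Int.dvd_natAbs]
          exact_mod_cast (htQ p hp).1
        · rw [← hfabs]
          exact lt_two_of_log (hf1 p0 (hts p0 hp0)) (hta p (ht hp)) (hta p0 (ht hp0)))
      have h2 : (q : ℝ) ^ η ≤ (N : ℝ) ^ η :=
        Real.rpow_le_rpow (by positivity) (by exact_mod_cast hq.2) hη0.le
      have hq0 : (0 : ℝ) < q := by exact_mod_cast hq.1
      have h3 : max 1 ((f p0 : ℝ) / (Y ^ (d - 2) * q)) ≤ V * (1 / (radp m q : ℝ)) := by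
        rw [mul_one_div, le_div_iff₀ hr0, mul_comm]
        exact (htQ p0 hp0).2
      have h4 : 2 * (f p0 : ℝ) * Y ^ 2 / (Y ^ d * q) + 1 ≤
          3 * max 1 ((f p0 : ℝ) / (Y ^ (d - 2) * q)) := by
        have e1 : 2 * (f p0 : ℝ) * Y ^ 2 / (Y ^ d * q) =
            2 * ((f p0 : ℝ) / (Y ^ (d - 2) * q)) := by
          rw [hYd]
          field_simp
        rw [e1]
        have e2 := le_max_left (1 : ℝ) ((f p0 : ℝ) / (Y ^ (d - 2) * q))
        have e3 := le_max_right (1 : ℝ) ((f p0 : ℝ) / (Y ^ (d - 2) * q))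
        linarith
      calc (t.card : ℝ) ≤ CL * (q : ℝ) ^ η * (2 * (f p0 : ℝ) * Y ^ 2 / (Y ^ d * q) + 1) := h1
        _ ≤ CL * (N : ℝ) ^ η * (3 * (V * (1 / (radp m q : ℝ)))) := by
            refine mul_le_mul (mul_le_mul_of_nonneg_left h2 hCL.le)
              (h4.trans (mul_le_mul_of_nonneg_left h3 (by norm_num))) (by positivity)
              (by positivity)
        _ = _ := by ring
  -- part B
  have hcardB : ∀ k ∈ Icc 2 k0, ((s.filter (fun p => (radp m (f p) : ℝ) ≤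
      V * (fk m (f p) k : ℝ) ^ (1 - β))).card : ℝ) ≤ ((A : ℝ) + 1) *
      ((2 * CB k * (Y * (N : ℝ)) ^ η * V) * (CR * ((m : ℝ) * N) ^ η)) := by
    intro k hk
    rw [Finset.mem_Icc] at hk
    have hCBk := hCB k
    refine dyad _ (fun p => fk m (f p) k) A _ (fun p hp => ?_) (fun a t0 ht0 hta => ?_)
    · have hps := Finset.mem_of_mem_filter p hp
      obtain ⟨c, h1, h2, h3, h4, h5⟩ := Pool.Agent.W597.CF.split m (f p) k i (hf1 p hps) him
      refine Nat.log_mono_right (le_trans ?_ (hfN p hps))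
      refine Nat.le_of_dvd (by have := hf1 p hps; omega) ?_
      refine (dvd_pow_self _ (by omega : k ≠ 0)).trans ⟨c, ?_⟩
      rw [mul_comm]
      exact h3
    refine Pool.Agent.W597.CF.cover m N t0 (fun p c => 1 ≤ fk m (f p) k ∧
      f p = c * fk m (f p) k ^ k ∧
      Nat.Coprime (fk m (f p) k) (i * c) ∧ radp m (f p) = fk m (f p) k * radp m c) _ _
      (by positivity) ?_ ?_ hE
    · intro p hp
      have hps := Finset.mem_of_mem_filter p (ht0 hp)
      obtain ⟨c, h1, h2, h3, h4, h5⟩ := Pool.Agent.W597.CF.split m (f p) k i (hf1 p hps) him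
      refine ⟨c, ?_, h2, h3, h4, h5⟩
      rw [Finset.mem_Icc]
      refine ⟨h1, le_trans ?_ (hfN p hps)⟩
      refine Nat.le_of_dvd (by have := hf1 p hps; omega) ?_
      exact ⟨_, h3⟩
    · intro c hc t ht htQ
      rw [Finset.mem_Icc] at hc
      have hr0 : (0 : ℝ) < (radp m c : ℝ) := by exact_mod_cast Pool.Agent.W597.CF.radp_pos m c
      rcases Finset.eq_empty_or_nonempty t with h0 | ⟨p0, hp0⟩
      · rw [h0, Finset.card_empty, Nat.cast_zero]
        positivity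
      have hz0 : (1 : ℝ) ≤ (fk m (f p0) k : ℝ) := by exact_mod_cast (htQ p0 hp0).1
      have hz : ∀ p ∈ t, (fk m (f p) k : ℝ) ≤ 2 * (fk m (f p0) k : ℝ) := fun p hp =>
        lt_two_of_log (htQ p0 hp0).1 (hta p (ht hp)) (hta p0 (ht hp0))
      have h1 := hB' k (by omega) Y (2 * (fk m (f p0) k : ℝ)) hY (by linarith) c hc.1 t
        (fun p hp => by
          have hps := Finset.mem_of_mem_filter p (ht0 (ht hp))
          exact ⟨(hs p hps).1.1, (hs p hps).1.2.1, (hs p hps).1.2.2.1, fk m (f p) k,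
            (htQ p hp).1, hz p hp, (htQ p hp).2.2.1, (htQ p hp).2.1⟩)
      have h2 : (Y * (c : ℝ)) ^ η ≤ (Y * (N : ℝ)) ^ η := by
        refine Real.rpow_le_rpow (by positivity) ?_ hη0.le
        exact mul_le_mul_of_nonneg_left (by exact_mod_cast hc.2) (by linarith)
      have h3 : (2 * (fk m (f p0) k : ℝ)) ^ β ≤ 2 * V * (1 / (radp m c : ℝ)) := by
        refine root_le' β _ _ V hβ0 hβ1 hz0 hr0 ?_
        have h5 := (Finset.mem_filter.1 (ht0 (ht hp0))).2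
        rw [(htQ p0 hp0).2.2.2] at h5
        push_cast at h5
        exact h5
      calc (t.card : ℝ) ≤ CB k * (Y * c) ^ η * (2 * (fk m (f p0) k : ℝ)) ^ β := h1
        _ ≤ CB k * (Y * N) ^ η * (2 * V * (1 / (radp m c : ℝ))) := by
            refine mul_le_mul (mul_le_mul_of_nonneg_left h2 (hCB k).le) h3 (by positivity)
              (by positivity)
        _ = _ := by ring
  -- total
  have hcover : s ⊆ sA ∪ (Icc 2 k0).biUnion (fun k => s.filter (fun p =>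
      (radp m (f p) : ℝ) ≤ V * (fk m (f p) k : ℝ) ^ (1 - β))) := by
    intro p hp
    rw [Finset.mem_union, Finset.mem_biUnion]
    rcases hsel m (f p) Y R hm (hf1 p hp) hY hR (hfle p hp) (hs p hp).2.2 hRY with
      ⟨q, h1, h2⟩ | ⟨k, h1, h2, h3⟩
    · left
      rw [hsA, Finset.mem_filter]
      exact ⟨hp, q, h1, h2⟩
    · right
      exact ⟨k, Finset.mem_Icc.2 ⟨h1, h2⟩, Finset.mem_filter.2 ⟨hp, h3⟩⟩
  have hcard1 : (s.card : ℝ) ≤ sA.card + ∑ k ∈ Icc 2 k0, ((s.filter (fun p =>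
      (radp m (f p) : ℝ) ≤ V * (fk m (f p) k : ℝ) ^ (1 - β))).card : ℝ) := by
    have h1 := (Finset.card_le_card hcover).trans
      ((Finset.card_union_le _ _).trans (Nat.add_le_add_left Finset.card_biUnion_le _))
    exact_mod_cast h1
  set X : ℝ := (m : ℝ) * Y with hX
  have hm1 : (1 : ℝ) ≤ m := by exact_mod_cast hm
  have hYX : Y ≤ X := by rw [hX]; nlinarith
  have hX1 : 1 ≤ X := hY.trans hYX
  have hX0 : 0 < X := by linarith
  set W : ℝ := X ^ η with hW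
  have hW1 : 1 ≤ W := Real.one_le_rpow hX1 hη0.le
  have hW0 : 0 < W := by linarith
  have hWn : ∀ n : ℕ, (c0 * X ^ n) ^ η = c0 ^ η * W ^ n := by
    intro n
    rw [Real.mul_rpow (by linarith) (by positivity), hW, ← Real.rpow_natCast, ← Real.rpow_natCast,
      ← Real.rpow_mul hX0.le, ← Real.rpow_mul hX0.le, mul_comm (n : ℝ) η]
  have hY3 : Y ^ d ≤ X ^ d := pow_le_pow_left₀ (by linarith) hYX d
  have hNX : (N : ℝ) ≤ c0 * X ^ d := hNle.trans (mul_le_mul_of_nonneg_left hY3 (by linarith))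
  have hb0 : (N : ℝ) ^ η ≤ c0 ^ η * W ^ d := by
    rw [← hWn]
    exact Real.rpow_le_rpow (by positivity) hNX hη0.le
  have hb1 : (N : ℝ) ^ η ≤ c0 ^ η * W ^ (d + 1) := by
    refine hb0.trans (mul_le_mul_of_nonneg_left ?_ hc0η.le)
    exact pow_le_pow_right₀ hW1 (by omega)
  have hb2 : (Y * (N : ℝ)) ^ η ≤ c0 ^ η * W ^ (d + 1) := by
    rw [← hWn]
    refine Real.rpow_le_rpow (by positivity) ?_ hη0.le
    calc Y * (N : ℝ) ≤ X * (c0 * X ^ d) := mul_le_mul hYX hNX (by positivity) hX0.le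
      _ = _ := by ring
  have hb3 : ((m : ℝ) * (N : ℝ)) ^ η ≤ c0 ^ η * W ^ d := by
    rw [← hWn]
    refine Real.rpow_le_rpow (by positivity) ?_ hη0.le
    have h2 : (m : ℝ) ≤ (m : ℝ) ^ d := by
      calc (m : ℝ) = (m : ℝ) ^ 1 := by ring
        _ ≤ (m : ℝ) ^ d := pow_le_pow_right₀ hm1 (by omega)
    calc (m : ℝ) * (N : ℝ) ≤ (m : ℝ) ^ d * (c0 * Y ^ d) :=
          mul_le_mul h2 hNle (by positivity) (by positivity)
      _ = c0 * X ^ d := by rw [hX]; ring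
  have hb4 : Y ^ η ≤ W := Real.rpow_le_rpow (by linarith) hYX hη0.le
  have hb5 : (A : ℝ) + 1 ≤ CG * (c0 ^ η * W ^ d) :=
    (log_bound η hη0 N hN1).trans (mul_le_mul_of_nonneg_left hb0 hCG0.le)
  have hWε : W ^ (3 * d + 2) = X ^ ε := by
    rw [hW, ← Real.rpow_natCast, ← Real.rpow_mul hX0.le, hη]
    congr 1
    push_cast
    field_simp
  have hVb : V ≤ C' * W * BdB d β Y R := by
    rw [hV]
    exact mul_le_mul_of_nonneg_right (mul_le_mul_of_nonneg_left hb4 hC'.le) hBd.le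
  have hEb : CR * ((m : ℝ) * N) ^ η ≤ CR * (c0 ^ η * W ^ d) :=
    mul_le_mul_of_nonneg_left hb3 hCR.le
  have hAb : (sA.card : ℝ) ≤ (CG * (c0 ^ η * W ^ d)) *
      ((3 * CL * (c0 ^ η * W ^ (d + 1)) * (C' * W * BdB d β Y R)) * (CR * (c0 ^ η * W ^ d))) := by
    refine hcardA.trans ?_
    refine mul_le_mul hb5 ?_ (by positivity) (by positivity)
    refine mul_le_mul ?_ hEb (by positivity) (by positivity)
    refine mul_le_mul ?_ hVb hV0.le (by positivity)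
    exact mul_le_mul_of_nonneg_left hb1 (by positivity)
  have hBb : ∀ k ∈ Icc 2 k0, ((s.filter (fun p => (radp m (f p) : ℝ) ≤
      V * (fk m (f p) k : ℝ) ^ (1 - β))).card : ℝ) ≤ (CG * (c0 ^ η * W ^ d)) *
      ((2 * CB k * (c0 ^ η * W ^ (d + 1)) * (C' * W * BdB d β Y R)) *
        (CR * (c0 ^ η * W ^ d))) := by
    intro k hk
    have hCBk := hCB k
    refine (hcardB k hk).trans ?_
    refine mul_le_mul hb5 ?_ (by positivity) (by positivity)
    refine mul_le_mul ?_ hEb (by positivity) (by positivity)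
    refine mul_le_mul ?_ hVb hV0.le (by positivity)
    exact mul_le_mul_of_nonneg_left hb2 (by positivity)
  have hfinal : (s.card : ℝ) ≤ (CG * (c0 ^ η * W ^ d)) *
      ((S1 * (c0 ^ η * W ^ (d + 1)) * (C' * W * BdB d β Y R)) * (CR * (c0 ^ η * W ^ d))) := by
    refine hcard1.trans ?_
    refine (add_le_add hAb (Finset.sum_le_sum hBb)).trans (le_of_eq ?_)
    rw [hS1, ← Finset.mul_sum, ← Finset.sum_mul, ← Finset.sum_mul, ← Finset.sum_mul]
    ring
  refine hfinal.trans (le_of_eq ?_)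
  have hWp : W ^ (3 * d + 2) = W ^ d * W ^ (d + 1) * W * W ^ d := by
    rw [← pow_add, ← pow_succ, ← pow_add]
    congr 1
    omega
  rw [← hWε, hWp]
  ring

end Pool.Agent.W571.QD
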